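import Mathlib

/-!
# H1-CB-Box: lattice points of a number field in a box (THEOREM NH, crude bound)
-/

set_option autoImplicit false

open scoped NumberField
open NumberField

noncomputable section

namespace H1.CB

/-- The number of integers `c` of `K` with `w c ≤ b w` for all places `w`. -/
theorem box (K : Type) [Field K] [NumberField K] (b : InfinitePlace K → ℝ) (hb : ∀ w, 0 ≤ b w)
    (Rs : Finset (𝓞 K)) (h : ∀ c ∈ Rs, ∀ w : InfinitePlace K, w (c : K) ≤ b w) :
    (Rs.card : ℝ) ≤ ∏ w : InfinitePlace K, (4 * b w + 2) ^ 2 := by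
  classical
  set fl : 𝓞 K → InfinitePlace K → ℤ × ℤ := fun c w =>
    (⌊2 * (w.embedding (c : K)).re⌋, ⌊2 * (w.embedding (c : K)).im⌋) with hfl
  set I : InfinitePlace K → Finset ℤ := fun w => Finset.Icc (-(⌊2 * b w⌋ + 1)) ⌊2 * b w⌋ with hI
  have hIc : ∀ w, ((I w).card : ℝ) ≤ 4 * b w + 2 := by
    intro w
    have h1 : 0 ≤ ⌊2 * b w⌋ := Int.floor_nonneg.mpr (by linarith [hb w])
    have h2 : ((⌊2 * b w⌋ : ℤ) : ℝ) ≤ 2 * b w := Int.floor_le _
    have h3 : ((I w).card : ℤ) = 2 * ⌊2 * b w⌋ + 2 := by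
      rw [hI, Int.card_Icc, Int.toNat_of_nonneg (by linarith)]
      ring
    have h4 : ((I w).card : ℝ) = 2 * ((⌊2 * b w⌋ : ℤ) : ℝ) + 2 := by exact_mod_cast h3
    rw [h4]
    linarith
  have hfl1 : ∀ (x t : ℝ), 0 ≤ t → |x| ≤ t → ⌊2 * x⌋ ∈ Finset.Icc (-(⌊2 * t⌋ + 1)) ⌊2 * t⌋ := by
    intro x t _ hx
    rw [Finset.mem_Icc]
    obtain ⟨hx1, hx2⟩ := abs_le.mp hx
    constructor
    · rw [Int.le_floor]
      have := Int.lt_floor_add_one (2 * t)
      push_cast
      linarith
    · exact Int.floor_le_floor (by linarith)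
  have hmaps : ∀ c ∈ Rs, fl c ∈ Fintype.piFinset fun w => I w ×ˢ I w := by
    intro c hc
    rw [Fintype.mem_piFinset]
    intro w
    have h1 : ‖w.embedding (c : K)‖ ≤ b w := by
      rw [InfinitePlace.norm_embedding_eq]
      exact h c hc w
    rw [Finset.mem_product]
    exact ⟨hfl1 _ _ (hb w) ((Complex.abs_re_le_norm _).trans h1),
      hfl1 _ _ (hb w) ((Complex.abs_im_le_norm _).trans h1)⟩
  have hinj : Set.InjOn fl (Rs : Set (𝓞 K)) := by
    intro c _ c' _ hcc
    by_contra hne
    have hne' : c - c' ≠ 0 := sub_ne_zero.mpr hne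
    have hlt : ∀ w : InfinitePlace K, w ((c - c' : 𝓞 K) : K) < 1 := by
      intro w
      have h1 := congrFun hcc w
      simp only [hfl, Prod.mk.injEq] at h1
      obtain ⟨h1, h2⟩ := h1
      have h3 := Int.abs_sub_lt_one_of_floor_eq_floor h1
      have h4 := Int.abs_sub_lt_one_of_floor_eq_floor h2
      rw [← InfinitePlace.norm_embedding_eq]
      have h5 : w.embedding ((c - c' : 𝓞 K) : K) =
          w.embedding (c : K) - w.embedding (c' : K) := by
        rw [← map_sub]
        rfl
      rw [h5]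
      set z := w.embedding (c : K) - w.embedding (c' : K) with hz
      have h6 : |2 * z.re| < 1 := by
        rw [hz, Complex.sub_re, mul_sub]
        exact h3
      have h7 : |2 * z.im| < 1 := by
        rw [hz, Complex.sub_im, mul_sub]
        exact h4
      rw [← sq_lt_one_iff₀ (norm_nonneg z), ← Complex.normSq_eq_norm_sq, Complex.normSq_apply]
      have h8 : (2 * z.re) ^ 2 < 1 := by
        rw [← sq_abs]
        exact (sq_lt_one_iff₀ (abs_nonneg _)).mpr h6
      have h9 : (2 * z.im) ^ 2 < 1 := by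
        rw [← sq_abs]
        exact (sq_lt_one_iff₀ (abs_nonneg _)).mpr h7
      nlinarith
    obtain ⟨w⟩ : Nonempty (InfinitePlace K) := inferInstance
    have h2 := InfinitePlace.one_le_of_lt_one (w := w) hne' (fun z _ => hlt z)
    exact absurd (hlt w) (not_lt.mpr h2)
  have h1 := Finset.card_le_card_of_injOn fl hmaps hinj
  rw [Fintype.card_piFinset] at h1
  calc (Rs.card : ℝ) ≤ ((∏ w, (I w ×ˢ I w).card : ℕ) : ℝ) := by exact_mod_cast h1
    _ = ∏ w, ((I w).card : ℝ) ^ 2 := by
        push_cast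
        refine Finset.prod_congr rfl fun w _ => ?_
        rw [Finset.card_product]
        push_cast
        ring
    _ ≤ ∏ w : InfinitePlace K, (4 * b w + 2) ^ 2 := by
        refine Finset.prod_le_prod (fun w _ => by positivity) fun w _ => ?_
        gcongr
        exact hIc w

end H1.CB
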