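import Mathlib

/-!
# H1-CB-Cf: coefficients of the minimal polynomial over `K` (THEOREM NH, crude bound)
-/

set_option autoImplicit false

open scoped NumberField
open NumberField NumberField.InfinitePlace Polynomial Module

noncomputable section

namespace H1.CB

/-- a product with at most one large factor -/
theorem prod_one (f : ℂ[X]) (hs : f.roots.Nodup) (z : ℂ) (T : ℝ) (hT : 1 ≤ T) (hz : ‖z‖ ≤ T)
    (h : ∀ r ∈ f.roots, 1 ≤ ‖r‖ → r = z) :
    (f.roots.map (fun a ↦ max 1 ‖a‖)).prod ≤ T := by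
  classical
  have h1 : (f.roots.map (fun a ↦ max 1 ‖a‖)).prod = ∏ r ∈ f.roots.toFinset, max 1 ‖r‖ := by
    rw [Finset.prod, Multiset.toFinset_val, Multiset.dedup_eq_self.mpr hs]
  rw [h1]
  by_cases hz' : z ∈ f.roots.toFinset
  · rw [Finset.prod_eq_single_of_mem z hz']
    · exact max_le hT hz
    · intro r hr hrz
      have h2 : ‖r‖ < 1 := by
        by_contra hc
        exact hrz (h r (Multiset.mem_toFinset.mp hr) (not_lt.mp hc))
      exact max_eq_left h2.le
  · rw [Finset.prod_eq_one]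
    · exact hT
    · intro r hr
      have h2 : ‖r‖ < 1 := by
        by_contra hc
        apply hz'
        rw [← h r (Multiset.mem_toFinset.mp hr) (not_lt.mp hc)]
        exact hr
      exact max_eq_left h2.le

open Classical in
/-- the coefficients -/
theorem coef (K L : Type) [Field K] [NumberField K] [Field L] [NumberField L] [Algebra K L]
    [IsTotallyComplex K] (w₀ : InfinitePlace L) (a : 𝓞 L) (T : ℝ) (hT : 1 ≤ T)
    (h1 : ∀ w : InfinitePlace L, w ≠ w₀ → w (a : L) < 1) (h2 : w₀ (a : L) ≤ T)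
    (u : InfinitePlace K) (k : ℕ) :
    u ((minpoly K (a : L)).coeff k) ≤
      2 ^ finrank K L * (if u = w₀.comap (algebraMap K L) then T else 1) := by
  let _ : Algebra K ℂ := u.embedding.toAlgebra
  have halg : algebraMap K ℂ = u.embedding := rfl
  have : FiniteDimensional K L := Module.Finite.of_restrictScalars_finite ℚ K L
  have hint : IsIntegral K (a : L) := Algebra.IsIntegral.isIntegral _
  set g := minpoly K (a : L) with hg
  set f := g.map (algebraMap K ℂ) with hf
  have hsep0 : g.Separable := Algebra.IsSeparable.isSeparable K (a : L)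
  have hsep : f.Separable := hsep0.map
  have hnd : f.roots.Nodup := nodup_roots hsep
  have hroot : ∀ r ∈ f.roots, ∃ ψ : L →ₐ[K] ℂ, ψ (a : L) = r := by
    intro r hr
    have h3 : r ∈ (minpoly K (a : L)).rootSet ℂ := by
      rw [mem_rootSet]
      refine ⟨minpoly.ne_zero hint, ?_⟩
      rw [aeval_def, ← eval_map]
      exact (mem_roots'.mp hr).2
    rw [← Algebra.IsAlgebraic.range_eval_eq_rootSet_minpoly ℂ (a : L)] at h3
    obtain ⟨ψ, hψ⟩ := h3
    exact ⟨ψ, hψ⟩
  have hnorm : ∀ ψ : L →ₐ[K] ℂ, ‖ψ (a : L)‖ = mk (ψ : L →+* ℂ) (a : L) := by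
    intro ψ
    rw [InfinitePlace.apply]
    rfl
  -- embeddings with a large value
  have hbig : ∀ ψ : L →ₐ[K] ℂ, 1 ≤ ‖ψ (a : L)‖ → mk (ψ : L →+* ℂ) = w₀ := by
    intro ψ hψ
    by_contra hc
    rw [hnorm] at hψ
    exact absurd (h1 _ hc) (not_lt.mpr hψ)
  have hres : ∀ ψ : L →ₐ[K] ℂ, (ψ : L →+* ℂ).comp (algebraMap K L) = u.embedding := by
    intro ψ
    ext x
    simp only [RingHom.comp_apply]
    exact ψ.commutes x
  have hcomap : ∀ ψ : L →ₐ[K] ℂ, mk (ψ : L →+* ℂ) = w₀ → u = w₀.comap (algebraMap K L) := by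
    intro ψ hψ
    rw [← hψ, comap_mk, hres, mk_embedding]
  have huniq : ∀ ψ ψ' : L →ₐ[K] ℂ, mk (ψ : L →+* ℂ) = w₀ → mk (ψ' : L →+* ℂ) = w₀ → ψ = ψ' := by
    intro ψ ψ' hψ hψ'
    have h3 : mk (ψ : L →+* ℂ) = mk (ψ' : L →+* ℂ) := hψ.trans hψ'.symm
    rcases mk_eq_iff.mp h3 with h4 | h4
    · ext x
      exact congrArg (fun F : L →+* ℂ => F x) h4
    · exfalso
      have h5 : ComplexEmbedding.conjugate u.embedding = u.embedding := by
        conv_rhs => rw [← hres ψ', ← h4]
        rw [← hres ψ]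
        rfl
      have h6 : ComplexEmbedding.IsReal u.embedding := h5
      exact (isComplex_iff.mp (IsTotallyComplex.isComplex u)) h6
  -- the product of the roots
  have hprod : (f.roots.map (fun a ↦ max 1 ‖a‖)).prod ≤
      (if u = w₀.comap (algebraMap K L) then T else 1) := by
    by_cases hex : ∃ ψ : L →ₐ[K] ℂ, mk (ψ : L →+* ℂ) = w₀
    · obtain ⟨ψ, hψ⟩ := hex
      rw [if_pos (hcomap ψ hψ)]
      refine prod_one f hnd (ψ (a : L)) T hT ?_ ?_
      · rw [hnorm, hψ]
        exact h2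
      · intro r hr hr1
        obtain ⟨ψ', rfl⟩ := hroot r hr
        rw [huniq ψ' ψ (hbig ψ' hr1) hψ]
    · have h3 : (f.roots.map (fun a ↦ max 1 ‖a‖)).prod ≤ 1 := by
        refine prod_one f hnd 0 1 le_rfl (by simp) ?_
        intro r hr hr1
        obtain ⟨ψ', rfl⟩ := hroot r hr
        exact absurd ⟨ψ', hbig ψ' hr1⟩ hex
      refine h3.trans ?_
      split_ifs
      · exact hT
      · exact le_rfl
  have hmonic : f.Monic := (minpoly.monic hint).map _
  have h3 := f.norm_coeff_le_choose_mul_mahlerMeasure k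
  rw [mahlerMeasure_eq_leadingCoeff_mul_prod_roots, hmonic.leadingCoeff, norm_one, one_mul] at h3
  have h4 : ‖f.coeff k‖ = u (g.coeff k) := by
    rw [hf, coeff_map, halg, norm_embedding_eq]
  rw [h4] at h3
  refine h3.trans ?_
  have h5 : ((f.natDegree.choose k : ℕ) : ℝ) ≤ 2 ^ finrank K L := by
    have h6 : f.natDegree ≤ finrank K L := by
      rw [hf, natDegree_map]
      exact minpoly.natDegree_le _
    have h7 : f.natDegree.choose k ≤ 2 ^ finrank K L :=
      (Nat.choose_le_two_pow _ _).trans (Nat.pow_le_pow_right (by norm_num) h6)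
    exact_mod_cast h7
  have h8 : 0 ≤ (f.roots.map (fun a ↦ max 1 ‖a‖)).prod :=
    zero_le_one.trans (one_le_prod_max_one_norm_roots f)
  exact mul_le_mul h5 hprod h8 (by positivity)

end H1.CB
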