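import Mathlib

/-!
# H1-CB-Gen: a small primitive element (THEOREM NH, crude bound)
-/

set_option autoImplicit false

open scoped NumberField NNReal ENNReal
open NumberField NumberField.InfinitePlace NumberField.mixedEmbedding MeasureTheory Module

noncomputable section

namespace H1.CB

/-- the Minkowski bound is at most `2 ^ n √|d|` -/
theorem mink (L : Type) [Field L] [NumberField L] :
    minkowskiBound L ↑1 ≤ ((2 ^ finrank ℚ L * NNReal.sqrt ‖discr L‖₊ : ℝ≥0) : ℝ≥0∞) := by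
  classical
  rw [minkowskiBound, volume_fundamentalDomain_fractionalIdealLatticeBasis, Units.val_one,
    FractionalIdeal.absNorm_one, Rat.cast_one, ENNReal.ofReal_one, one_mul,
    mixedEmbedding.finrank, volume_fundamentalDomain_latticeBasis, ENNReal.coe_mul,
    ENNReal.coe_pow, ENNReal.coe_ofNat]
  rw [mul_comm (2 ^ finrank ℚ L : ℝ≥0∞)]
  gcongr
  refine (mul_le_mul_left (α := ℝ≥0∞) (pow_le_one₀ (by positivity) (by simp)) _).trans_eq
    (one_mul _)

/-- a primitive integer with one large complex conjugate -/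
theorem gen (L : Type) [Field L] [NumberField L] (w₀ : InfinitePlace L) (hw₀ : IsComplex w₀) :
    ∃ a : 𝓞 L, IntermediateField.adjoin ℚ {(a : L)} = ⊤ ∧
      (∀ w : InfinitePlace L, w ≠ w₀ → w (a : L) < 1) ∧
      w₀ (a : L) ≤ 2 ^ finrank ℚ L * Real.sqrt |(discr L : ℝ)| + 2 := by
  classical
  set B : ℝ≥0 := 2 ^ finrank ℚ L * NNReal.sqrt ‖discr L‖₊ + 1 with hB
  have h1 : minkowskiBound L ↑1 < convexBodyLT'Factor L * B := by
    refine (mink L).trans_lt ?_
    have h2 : (2 ^ finrank ℚ L * NNReal.sqrt ‖discr L‖₊ : ℝ≥0) < B := by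
      rw [hB]
      exact lt_add_one _
    calc ((2 ^ finrank ℚ L * NNReal.sqrt ‖discr L‖₊ : ℝ≥0) : ℝ≥0∞) < (B : ℝ≥0∞) :=
          ENNReal.coe_lt_coe.mpr h2
      _ = 1 * (B : ℝ≥0∞) := (one_mul _).symm
      _ ≤ convexBodyLT'Factor L * B := by
          gcongr
          exact_mod_cast one_le_convexBodyLT'Factor L
  have h3 : minkowskiBound L ↑1 <
      volume (convexBodyLT' L (fun w ↦ if w = w₀ then NNReal.sqrt B else 1) ⟨w₀, hw₀⟩) := by
    rw [convexBodyLT'_volume, ← Finset.prod_erase_mul _ _ (Finset.mem_univ w₀)]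
    simp_rw [ite_pow, one_pow]
    rw [Finset.prod_ite_eq']
    simp_rw [Finset.notMem_erase, ite_false, mult, not_isReal_iff_isComplex.mpr hw₀,
      ite_true, ite_false, one_mul, NNReal.sq_sqrt]
    exact h1
  obtain ⟨a, h_nz, h_le, h_le₀⟩ := exists_ne_zero_mem_ringOfIntegers_lt' L ⟨w₀, hw₀⟩ h3
  have h4 : ∀ w : InfinitePlace L, w ≠ w₀ → w (a : L) < 1 := by
    intro w hw
    have := h_le w hw
    rw [if_neg hw] at this
    exact_mod_cast this
  refine ⟨a, is_primitive_element_of_infinitePlace_lt h_nz (fun w h_ne ↦ h4 w h_ne)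
    (Or.inr h_le₀.1), h4, ?_⟩
  obtain ⟨h5, h6⟩ := h_le₀
  rw [if_pos rfl] at h6
  have h7 : ((NNReal.sqrt B : ℝ≥0) : ℝ) ^ 2 = 2 ^ finrank ℚ L * Real.sqrt |(discr L : ℝ)| + 1 := by
    rw [← NNReal.coe_pow, NNReal.sq_sqrt, hB]
    push_cast
    rw [Int.norm_eq_abs]
  rw [h7] at h6
  rw [← norm_embedding_eq]
  have h8 : ‖w₀.embedding (a : L)‖ ≤ |(w₀.embedding (a : L)).re| + |(w₀.embedding (a : L)).im| :=
    Complex.norm_le_abs_re_add_abs_im _
  have h5' : |(w₀.embedding (a : L)).re| < 1 := h5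
  have h6' : |(w₀.embedding (a : L)).im| < 2 ^ finrank ℚ L * Real.sqrt |(discr L : ℝ)| + 1 := h6
  linarith

end H1.CB
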