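import Pool.Agent.H1.CB.Box
import Pool.Agent.H1.CB.Gen
import Pool.Agent.H1.CB.Cf

/-!
# H1-CB-Fld: the number of extensions of bounded relative discriminant (THEOREM NH, crude bound)

The exponent `m` (the relative degree) does not depend on `K`.
-/

set_option autoImplicit false

open scoped NumberField
open NumberField NumberField.InfinitePlace Polynomial Module

noncomputable section

namespace H1.CB

variable {K Ω : Type} [Field K] [NumberField K] [Field Ω] [Algebra K Ω]

/-- the monic polynomial with given lower coefficients -/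
def pol {m : ℕ} (c : Fin m → 𝓞 K) : (𝓞 K)[X] := X ^ m + ∑ k : Fin m, C (c k) * X ^ (k : ℕ)

theorem pol_monic {m : ℕ} (c : Fin m → 𝓞 K) : (pol c).Monic := by
  unfold pol
  exact monic_X_pow_add (degree_sum_fin_lt c)

theorem pol_deg {m : ℕ} (c : Fin m → 𝓞 K) : (pol c).natDegree = m := by
  unfold pol
  have h1 : (∑ k : Fin m, C (c k) * X ^ (k : ℕ)).degree < (m : WithBot ℕ) :=
    degree_sum_fin_lt c
  have h2 : (X ^ m + ∑ k : Fin m, C (c k) * X ^ (k : ℕ) : (𝓞 K)[X]).degree = m := by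
    rw [degree_add_eq_left_of_degree_lt]
    · exact degree_X_pow m
    · rw [degree_X_pow]
      exact h1
  exact natDegree_eq_of_degree_eq_some h2

open Classical in
/-- the data of a field -/
theorem dat0 [IsTotallyComplex K] (m : ℕ) (X : ℝ) (L : Type) [Field L] [NumberField L]
    [Algebra K L] (hm : finrank K L = m)
    (hX : (Ideal.absNorm (differentIdeal (𝓞 K) (𝓞 L)) : ℝ) ≤ X) :
    ∃ (a : L) (w : InfinitePlace K) (c : Fin m → 𝓞 K),
      IntermediateField.adjoin K {a} = ⊤ ∧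
      aeval a ((pol c).map (algebraMap (𝓞 K) K)) = 0 ∧
      ∀ (k : Fin m) (u : InfinitePlace K), u (c k : K) ≤
        2 ^ m * (if u = w then
          2 ^ (finrank ℚ K * m) * Real.sqrt (X * |(discr K : ℝ)| ^ m) + 2 else 1) := by
  obtain ⟨w₀⟩ : Nonempty (InfinitePlace L) := inferInstance
  have hw₀ : IsComplex w₀ :=
    IsComplex.of_comap (algebraMap K L) (IsTotallyComplex.isComplex (w₀.comap (algebraMap K L)))
  obtain ⟨a, ha, h1, h2⟩ := gen L w₀ hw₀
  have hfd : FiniteDimensional K L := Module.Finite.of_restrictScalars_finite ℚ K L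
  have hdeg : finrank ℚ L = finrank ℚ K * m := by
    rw [← hm, Module.finrank_mul_finrank]
  have hdisc : |(discr L : ℝ)| ≤ X * |(discr K : ℝ)| ^ m := by
    have h3 := natAbs_discr_eq_absNorm_differentIdeal_mul_natAbs_discr_pow K (𝓞 K) L (𝓞 L)
    have h4 : ((discr L).natAbs : ℝ) = |(discr L : ℝ)| := by
      rw [Nat.cast_natAbs, Int.cast_abs]
    have h5 : ((discr K).natAbs : ℝ) = |(discr K : ℝ)| := by
      rw [Nat.cast_natAbs, Int.cast_abs]
    rw [← h4, ← h5, h3, hm]
    push_cast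
    gcongr
  set T : ℝ := 2 ^ (finrank ℚ K * m) * Real.sqrt (X * |(discr K : ℝ)| ^ m) + 2 with hT
  have hT1 : 1 ≤ T := by
    rw [hT]
    have : 0 ≤ 2 ^ (finrank ℚ K * m) * Real.sqrt (X * |(discr K : ℝ)| ^ m) := by positivity
    linarith
  have h2' : w₀ (a : L) ≤ T := by
    refine h2.trans ?_
    rw [hT, hdeg]
    gcongr
  have hK : IntermediateField.adjoin K {(a : L)} = ⊤ := by
    rw [eq_top_iff]
    intro x _
    have h3 : IntermediateField.adjoin ℚ {(a : L)} ≤
        (IntermediateField.adjoin K {(a : L)}).restrictScalars ℚ := by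
      rw [IntermediateField.adjoin_simple_le_iff]
      exact IntermediateField.mem_adjoin_simple_self K (a : L)
    have h4 : x ∈ IntermediateField.adjoin ℚ {(a : L)} := by
      rw [ha]
      exact IntermediateField.mem_top
    exact h3 h4
  have hint : IsIntegral (𝓞 K) (a : L) := by
    have h3 : IsIntegral ℤ (a : L) := a.isIntegral_coe
    exact h3.tower_top
  have hmin : minpoly K (a : L) = (minpoly (𝓞 K) (a : L)).map (algebraMap (𝓞 K) K) :=
    minpoly.isIntegrallyClosed_eq_field_fractions' K hint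
  have hnat : (minpoly (𝓞 K) (a : L)).natDegree = m := by
    rw [← (minpoly.monic hint).natDegree_map (algebraMap (𝓞 K) K), ← hmin, ← hm]
    exact (Field.primitive_element_iff_minpoly_natDegree_eq K (a : L)).mp hK
  refine ⟨(a : L), w₀.comap (algebraMap K L), fun k => (minpoly (𝓞 K) (a : L)).coeff k,
    hK, ?_, ?_⟩
  · have h3 : pol (fun k : Fin m => (minpoly (𝓞 K) (a : L)).coeff k) = minpoly (𝓞 K) (a : L) := by
      have h4 := (minpoly.monic hint).as_sum
      rw [hnat] at h4
      conv_rhs => rw [h4]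
      unfold pol
      rw [Finset.sum_range]
    rw [h3, ← hmin]
    exact minpoly.aeval K (a : L)
  · intro k u
    have h3 := coef K L w₀ a T hT1 h1 h2' u k
    rw [hmin, coeff_map, hm] at h3
    exact h3

open Classical in
/-- the data of a field -/
theorem dat [IsTotallyComplex K] (m : ℕ) (X : ℝ) (L : IntermediateField K Ω)
    (hL : ∃ _ : NumberField L, finrank K L = m ∧
      (Ideal.absNorm (differentIdeal (𝓞 K) (𝓞 L)) : ℝ) ≤ X) :
    ∃ (a : Ω) (w : InfinitePlace K) (c : Fin m → 𝓞 K),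
      IntermediateField.adjoin K {a} = L ∧
      aeval a ((pol c).map (algebraMap (𝓞 K) K)) = 0 ∧
      ∀ (k : Fin m) (u : InfinitePlace K), u (c k : K) ≤
        2 ^ m * (if u = w then
          2 ^ (finrank ℚ K * m) * Real.sqrt (X * |(discr K : ℝ)| ^ m) + 2 else 1) := by
  obtain ⟨hNF, hm, hX⟩ := hL
  obtain ⟨a, w, c, h1, h2, h3⟩ := dat0 m X L hm hX
  refine ⟨(a : Ω), w, c, ?_, ?_, h3⟩
  · rw [← (IntermediateField.lift_injective _).eq_iff] at h1
    rw [IntermediateField.lift_top, IntermediateField.lift_adjoin, Set.image_singleton] at h1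
    exact h1
  · have h5 : aeval ((algebraMap L Ω) a) ((pol c).map (algebraMap (𝓞 K) K)) = 0 := by
      rw [aeval_algebraMap_apply, h2, map_zero]
    exact h5

/-- number of extensions of degree `m` -/
theorem fields [IsTotallyComplex K] (m : ℕ) :
    ∃ C : ℝ, 0 < C ∧ ∀ (X : ℝ), 1 ≤ X → ∀ Ls : Finset (IntermediateField K Ω),
      (∀ L ∈ Ls, ∃ _ : NumberField L, finrank K L = m ∧
        (Ideal.absNorm (differentIdeal (𝓞 K) (𝓞 L)) : ℝ) ≤ X) →
      (Ls.card : ℝ) ≤ C * X ^ m := by
  classical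
  set A : ℝ := 2 ^ (finrank ℚ K * m) * Real.sqrt (|(discr K : ℝ)| ^ m) + 2 with hA
  have hA2 : 2 ≤ A := by
    rw [hA]
    have : 0 ≤ 2 ^ (finrank ℚ K * m) * Real.sqrt (|(discr K : ℝ)| ^ m) := by positivity
    linarith
  set n : ℕ := Fintype.card (InfinitePlace K) with hn
  refine ⟨n * ((6 * 2 ^ m) ^ (2 * n) * A ^ 2) ^ m * (m + 1), ?_, ?_⟩
  · have h1 : 0 < n := Fintype.card_pos
    have h2 : (0 : ℝ) < n := by exact_mod_cast h1
    positivity
  intro X hX Ls hLs
  have h1 : ∀ L : IntermediateField K Ω, ∃ (a : Ω) (w : InfinitePlace K) (c : Fin m → 𝓞 K),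
      L ∈ Ls → (IntermediateField.adjoin K {a} = L ∧
      aeval a ((pol c).map (algebraMap (𝓞 K) K)) = 0 ∧
      ∀ (k : Fin m) (u : InfinitePlace K), u (c k : K) ≤
        2 ^ m * (if u = w then
          2 ^ (finrank ℚ K * m) * Real.sqrt (X * |(discr K : ℝ)| ^ m) + 2 else 1)) := by
    intro L
    by_cases hL : L ∈ Ls
    · obtain ⟨a, w, c, h⟩ := dat m X L (hLs L hL)
      exact ⟨a, w, c, fun _ => h⟩
    · obtain ⟨w⟩ : Nonempty (InfinitePlace K) := inferInstance
      exact ⟨0, w, fun _ => 0, fun h => absurd h hL⟩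
  choose a w c h using h1
  set T : ℝ := 2 ^ (finrank ℚ K * m) * Real.sqrt (X * |(discr K : ℝ)| ^ m) + 2 with hT
  have hT1 : 1 ≤ T := by
    rw [hT]
    have : 0 ≤ 2 ^ (finrank ℚ K * m) * Real.sqrt (X * |(discr K : ℝ)| ^ m) := by positivity
    linarith
  have hTA : T ≤ A * Real.sqrt X := by
    rw [hT, hA, Real.sqrt_mul (by linarith), add_mul]
    have h2 : 1 ≤ Real.sqrt X := Real.one_le_sqrt.mpr hX
    have h3 : 2 ^ (finrank ℚ K * m) * (Real.sqrt X * Real.sqrt (|(discr K : ℝ)| ^ m)) =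
        2 ^ (finrank ℚ K * m) * Real.sqrt (|(discr K : ℝ)| ^ m) * Real.sqrt X := by ring
    rw [h3]
    linarith
  set Cs : InfinitePlace K → Finset (𝓞 K) := fun v =>
    (Ls.filter fun L => w L = v).biUnion fun L => Finset.univ.image (c L) with hCs
  have hCc : ∀ v, ((Cs v).card : ℝ) ≤ (6 * 2 ^ m) ^ (2 * n) * A ^ 2 * X := by
    intro v
    have h2 := box K (fun u => 2 ^ m * (if u = v then T else 1)) (fun u => by positivity) (Cs v) (by
      intro x hx u
      rw [hCs, Finset.mem_biUnion] at hx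
      obtain ⟨L, hL, hx⟩ := hx
      rw [Finset.mem_filter] at hL
      rw [Finset.mem_image] at hx
      obtain ⟨k, -, rfl⟩ := hx
      have h3 := (h L hL.1).2.2 k u
      rw [hL.2] at h3
      exact h3)
    refine h2.trans ?_
    have h3 : ∀ u : InfinitePlace K, (4 * (2 ^ m * (if u = v then T else 1)) + 2) ^ 2 ≤
        (6 * 2 ^ m) ^ 2 * (if u = v then T ^ 2 else 1) := by
      intro u
      have h4 : (1 : ℝ) ≤ 2 ^ m := one_le_pow₀ (by norm_num)
      split_ifs
      · have h5 : 4 * (2 ^ m * T) + 2 ≤ 6 * 2 ^ m * T := by nlinarith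
        calc (4 * (2 ^ m * T) + 2) ^ 2 ≤ (6 * 2 ^ m * T) ^ 2 := by gcongr
          _ = (6 * 2 ^ m) ^ 2 * T ^ 2 := by ring
      · rw [mul_one, mul_one]
        have h5 : 4 * (2 ^ m : ℝ) + 2 ≤ 6 * 2 ^ m := by linarith
        gcongr
    calc ∏ u : InfinitePlace K, (4 * (2 ^ m * (if u = v then T else 1)) + 2) ^ 2
        ≤ ∏ u : InfinitePlace K, ((6 * 2 ^ m) ^ 2 * (if u = v then T ^ 2 else 1)) :=
          Finset.prod_le_prod (fun u _ => by positivity) fun u _ => h3 u
      _ = (6 * 2 ^ m) ^ (2 * n) * T ^ 2 := by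
          rw [Finset.prod_mul_distrib, Finset.prod_const, Finset.card_univ, ← hn, ← pow_mul,
            Finset.prod_ite_eq' Finset.univ v (fun _ => T ^ 2), if_pos (Finset.mem_univ v)]
      _ ≤ (6 * 2 ^ m) ^ (2 * n) * (A * Real.sqrt X) ^ 2 := by gcongr
      _ = (6 * 2 ^ m) ^ (2 * n) * A ^ 2 * X := by
          rw [mul_pow A, Real.sq_sqrt (by linarith)]
          ring
  set Rt : (Fin m → 𝓞 K) → Finset Ω := fun d =>
    (((pol d).map (algebraMap (𝓞 K) K)).map (algebraMap K Ω)).roots.toFinset with hRt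
  have hRc : ∀ d, (Rt d).card ≤ m := by
    intro d
    refine (Multiset.toFinset_card_le _).trans ?_
    refine (card_roots' _).trans ?_
    rw [((pol_monic d).map _).natDegree_map, (pol_monic d).natDegree_map, pol_deg]
  have hmaps : ∀ L ∈ Ls, a L ∈ (Finset.univ : Finset (InfinitePlace K)).biUnion fun v =>
      (Fintype.piFinset fun _ : Fin m => Cs v).biUnion Rt := by
    intro L hL
    rw [Finset.mem_biUnion]
    refine ⟨w L, Finset.mem_univ _, ?_⟩
    rw [Finset.mem_biUnion]
    refine ⟨c L, ?_, ?_⟩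
    · rw [Fintype.mem_piFinset]
      intro k
      rw [hCs, Finset.mem_biUnion]
      exact ⟨L, Finset.mem_filter.mpr ⟨hL, rfl⟩, Finset.mem_image_of_mem _ (Finset.mem_univ k)⟩
    · rw [hRt, Multiset.mem_toFinset, mem_roots (((pol_monic _).map _).map _).ne_zero, IsRoot,
        eval_map, ← aeval_def]
      exact (h L hL).2.1
  have hinj : Set.InjOn a (Ls : Set (IntermediateField K Ω)) := by
    intro L hL L' hL' hLL
    rw [← (h L hL).1, ← (h L' hL').1, hLL]
  have h2 := Finset.card_le_card_of_injOn a hmaps hinj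
  have h3 : ∀ v, (((Fintype.piFinset fun _ : Fin m => Cs v).biUnion Rt).card : ℝ) ≤
      ((6 * 2 ^ m) ^ (2 * n) * A ^ 2 * X) ^ m * m := by
    intro v
    have h4 := Finset.card_biUnion_le_card_mul (Fintype.piFinset fun _ : Fin m => Cs v) Rt m
      (fun d _ => hRc d)
    rw [Fintype.card_piFinset, Finset.prod_const, Finset.card_univ, Fintype.card_fin] at h4
    calc (((Fintype.piFinset fun _ : Fin m => Cs v).biUnion Rt).card : ℝ)
        ≤ ((((Cs v).card ^ m * m : ℕ)) : ℝ) := by exact_mod_cast h4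
      _ = ((Cs v).card : ℝ) ^ m * m := by push_cast; ring
      _ ≤ ((6 * 2 ^ m) ^ (2 * n) * A ^ 2 * X) ^ m * m := by
          gcongr
          exact hCc v
  calc (Ls.card : ℝ) ≤ (((Finset.univ : Finset (InfinitePlace K)).biUnion fun v =>
        (Fintype.piFinset fun _ : Fin m => Cs v).biUnion Rt).card : ℝ) := by exact_mod_cast h2
    _ ≤ ((∑ v : InfinitePlace K,
        ((Fintype.piFinset fun _ : Fin m => Cs v).biUnion Rt).card : ℕ) : ℝ) := by
        exact_mod_cast Finset.card_biUnion_le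
    _ = ∑ v : InfinitePlace K,
        (((Fintype.piFinset fun _ : Fin m => Cs v).biUnion Rt).card : ℝ) := by push_cast; rfl
    _ ≤ ∑ _v : InfinitePlace K, ((6 * 2 ^ m) ^ (2 * n) * A ^ 2 * X) ^ m * m :=
        Finset.sum_le_sum fun v _ => h3 v
    _ = n * (((6 * 2 ^ m) ^ (2 * n) * A ^ 2 * X) ^ m * m) := by
        rw [Finset.sum_const, Finset.card_univ, ← hn, nsmul_eq_mul]
    _ = n * ((6 * 2 ^ m) ^ (2 * n) * A ^ 2) ^ m * m * X ^ m := by
        rw [mul_pow ((6 * 2 ^ m) ^ (2 * n) * A ^ 2) X]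
        ring
    _ ≤ n * ((6 * 2 ^ m) ^ (2 * n) * A ^ 2) ^ m * (m + 1) * X ^ m := by
        gcongr
        linarith

end H1.CB
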