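import Pool.Agent.H1.CB.Fld
import Pool.Agent.H38.ML.Disc
import Pool.Agent.H38.ML.Factor
import Pool.Agent.H38.TD.Defs
import Pool.Agent.H63.MA.Base

/-!
# H1-CB-Hom: the number of homomorphisms with given ramification (THEOREM NH, crude bound)

`H` a finite group, `H₀` a subgroup with trivial normal core, `m` its index.  The number of surjective homomorphisms
`Gal(Ω/K) → H` of finite type unramified outside `S` and `E` is at most `C (∏_{v ∈ E} N v) ^ (m (m - 1))`, `C` independent of `E`; the exponent does not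
depend on `K` (`K` totally complex).
-/

set_option autoImplicit false

open scoped NumberField
open IsDedekindDomain NumberField H38.ML H63.MA Module
open H38.TD (UnrAt)

noncomputable section

namespace H1.CB

variable {K Ω : Type} [Field K] [NumberField K] [Field Ω] [Algebra K Ω] [IsAlgClosure K Ω]

private theorem ovr (v : Ideal (𝓞 K)) (hv : v.IsPrime) :
    ∃ 𝔓 : Ideal (𝓞 Ω), 𝔓.IsPrime ∧ 𝔓.under (𝓞 K) = v := by
  obtain ⟨Q, hQ, hQv⟩ := Ideal.exists_ideal_over_prime_of_isIntegral v (⊥ : Ideal (𝓞 Ω)) (by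
    rw [← RingHom.ker_eq_comap_bot]
    have : Function.Injective (algebraMap (𝓞 K) (𝓞 Ω)) :=
      NumberField.RingOfIntegers.algebraMap.injective K Ω
    rw [(RingHom.injective_iff_ker_eq_bot _).mp this]
    exact bot_le)
  exact ⟨Q, hQv.1, hQv.2⟩

variable {H : Type} [Group H]

/-- the field of `H₀` -/
def fld (H₀ : Subgroup H) (ψ : Gal(Ω/K) →* H) : IntermediateField K Ω :=
  IntermediateField.fixedField (H₀.comap ψ)

theorem fld_fix (H₀ : Subgroup H) (ψ : Gal(Ω/K) →* H) (hψ : FT ψ) :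
    (fld H₀ ψ).fixingSubgroup = H₀.comap ψ ∧ FiniteDimensional K (fld H₀ ψ) := by
  obtain ⟨E, hE, hle⟩ := hψ
  have : FiniteDimensional K E := hE
  refine fixing_fixedField (H₀.comap ψ) E (hle.trans ?_)
  intro x hx
  rw [Subgroup.mem_comap, MonoidHom.mem_ker.mp hx]
  exact H₀.one_mem

theorem fld_rank (H₀ : Subgroup H) (ψ : Gal(Ω/K) →* H) (hψ : FT ψ)
    (hs : Function.Surjective ψ) : finrank K (fld H₀ ψ) = H₀.index := by
  have : IsGalois K Ω := IsAlgClosure.isGalois K Ω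
  rw [IntermediateField.finrank_eq_fixingSubgroup_index, (fld_fix H₀ ψ hψ).1,
    Subgroup.index_comap_of_surjective H₀ hs]

/-- trivial action on the embeddings -/
theorem emb_triv (L : IntermediateField K Ω) [FiniteDimensional K L] (J : Subgroup Gal(Ω/K))
    (hJ : ∀ τ ∈ J, ∀ g : Gal(Ω/K), g⁻¹ * τ * g ∈ L.fixingSubgroup) :
    finrank K L ≤ embOrb L J := by
  have hac : IsAlgClosed Ω := IsAlgClosure.isAlgClosed K
  have hn : Normal K Ω := IsAlgClosure.normal K Ω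
  have h1 : ∀ φ ψ : L →ₐ[K] Ω, (∃ τ ∈ J, ((τ : Gal(Ω/K)) : Ω →ₐ[K] Ω).comp φ = ψ) → φ = ψ := by
    rintro φ ψ ⟨τ, hτ, rfl⟩
    ext x
    have h2 : IsConjRoot K ((x : L) : Ω) (φ x) := by
      rw [IsConjRoot, minpoly.algHom_eq φ φ.injective x]
      exact minpoly.algHom_eq L.val L.val.injective x
    obtain ⟨g, hg⟩ := isConjRoot_iff_exists_algEquiv.mp h2.symm
    have h3 := hJ τ hτ g
    rw [IntermediateField.mem_fixingSubgroup_iff] at h3
    have h4 := h3 x x.2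
    have h5 : τ (g (x : Ω)) = g (x : Ω) := by
      have h6 : g ((g⁻¹ * τ * g : Gal(Ω/K)) (x : Ω)) = g (x : Ω) := congrArg g h4
      have h7 : g ((g⁻¹ * τ * g : Gal(Ω/K)) (x : Ω)) = τ (g (x : Ω)) :=
        AlgEquiv.apply_symm_apply g _
      rw [← h7]
      exact h6
    change φ x = τ (φ x)
    rw [← hg]
    exact h5.symm
  have h2 : Fintype.card (L →ₐ[K] Ω) = finrank K L := AlgHom.card K L Ω
  rw [← h2, embOrb, ← Nat.card_eq_fintype_card]
  have h3 : Finite (Quot fun φ ψ : L →ₐ[K] Ω =>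
      ∃ τ ∈ J, ((τ : Gal(Ω/K)) : Ω →ₐ[K] Ω).comp φ = ψ) :=
    Finite.of_surjective _ Quot.mk_surjective
  refine Nat.card_le_card_of_injective (Quot.mk _) ?_
  intro φ ψ h
  have h4 : Quot.lift (fun x : L →ₐ[K] Ω => x) (fun a b hab => h1 a b hab) (Quot.mk _ φ) =
      Quot.lift (fun x : L →ₐ[K] Ω => x) (fun a b hab => h1 a b hab) (Quot.mk _ ψ) := by
    rw [h]
  exact h4

theorem emb_one (L : IntermediateField K Ω) [FiniteDimensional K L] (J : Subgroup Gal(Ω/K)) :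
    1 ≤ embOrb L J := by
  have hac : IsAlgClosed Ω := IsAlgClosure.isAlgClosed K
  rw [embOrb]
  have h3 : Finite (Quot fun φ ψ : L →ₐ[K] Ω =>
      ∃ τ ∈ J, ((τ : Gal(Ω/K)) : Ω →ₐ[K] Ω).comp φ = ψ) :=
    Finite.of_surjective _ Quot.mk_surjective
  have h4 : Nonempty (Quot fun φ ψ : L →ₐ[K] Ω =>
      ∃ τ ∈ J, ((τ : Gal(Ω/K)) : Ω →ₐ[K] Ω).comp φ = ψ) := ⟨Quot.mk _ L.val⟩
  exact Nat.one_le_iff_ne_zero.mpr (Nat.card_ne_zero.mpr ⟨h4, h3⟩)

theorem ker_eq (H₀ : Subgroup H) (h₀ : H₀.normalCore = ⊥) (ψ : Gal(Ω/K) →* H)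
    (hs : Function.Surjective ψ) (x : Gal(Ω/K)) :
    ψ x = 1 ↔ ∀ g : Gal(Ω/K), g * x * g⁻¹ ∈ H₀.comap ψ := by
  constructor
  · intro h g
    rw [Subgroup.mem_comap, map_mul, map_mul, h, mul_one, map_inv, mul_inv_cancel]
    exact H₀.one_mem
  · intro h
    have h1 : ψ x ∈ H₀.normalCore := by
      intro y
      obtain ⟨g, rfl⟩ := hs y
      have h2 := h g
      rw [Subgroup.mem_comap, map_mul, map_mul, map_inv] at h2
      exact h2
    rw [h₀, Subgroup.mem_bot] at h1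
    exact h1

/-- homomorphisms with the same field -/
theorem fib [Finite H] (H₀ : Subgroup H) (h₀ : H₀.normalCore = ⊥)
    (Rs : Finset (Gal(Ω/K) →* H)) (L : IntermediateField K Ω)
    (h : ∀ ψ ∈ Rs, FT ψ ∧ Function.Surjective ψ ∧ fld H₀ ψ = L) :
    Rs.card ≤ Nat.card (H → H) := by
  classical
  rcases Rs.eq_empty_or_nonempty with rfl | ⟨ψ₀, hψ₀⟩
  · simp
  obtain ⟨hf₀, hs₀, hL₀⟩ := h ψ₀ hψ₀
  have hker : ∀ ψ ∈ Rs, ∀ x, ψ x = 1 ↔ ψ₀ x = 1 := by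
    intro ψ hψ x
    obtain ⟨hf, hs, hL⟩ := h ψ hψ
    rw [ker_eq H₀ h₀ ψ hs, ker_eq H₀ h₀ ψ₀ hs₀, ← (fld_fix H₀ ψ hf).1, ← (fld_fix H₀ ψ₀ hf₀).1,
      hL, hL₀]
  have hFin : Fintype (H → H) := Fintype.ofFinite _
  rw [Nat.card_eq_fintype_card, ← Finset.card_univ]
  refine Finset.card_le_card_of_injOn (fun ψ h => ψ (Function.surjInv hs₀ h))
    (fun _ _ => Finset.mem_coe.mpr (Finset.mem_univ _)) ?_
  intro ψ hψ ψ' hψ' he
  ext g
  have h1 : ψ₀ (Function.surjInv hs₀ (ψ₀ g) * g⁻¹) = 1 := by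
    rw [map_mul, Function.surjInv_eq hs₀, map_inv, mul_inv_cancel]
  have h2 : ψ (Function.surjInv hs₀ (ψ₀ g)) = ψ g := by
    have h3 := (hker ψ hψ _).mpr h1
    rw [map_mul, map_inv] at h3
    exact mul_inv_eq_one.mp h3
  have h2' : ψ' (Function.surjInv hs₀ (ψ₀ g)) = ψ' g := by
    have h3 := (hker ψ' hψ' _).mpr h1
    rw [map_mul, map_inv] at h3
    exact mul_inv_eq_one.mp h3
  rw [← h2, ← h2']
  exact congrFun he (ψ₀ g)

/-- the primes containing a nonzero integer -/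
theorem fin_primes (z : 𝓞 K) (hz : z ≠ 0) :
    {v : Ideal (𝓞 K) | v.IsPrime ∧ v ≠ ⊥ ∧ z ∈ v}.Finite := by
  have h1 : {v : HeightOneSpectrum (𝓞 K) | v.asIdeal ∣ Ideal.span {z}}.Finite :=
    Ideal.finite_factors (by rw [Ne, Ideal.zero_eq_bot, Ideal.span_singleton_eq_bot]; exact hz)
  refine (h1.image fun v => v.asIdeal).subset ?_
  rintro v ⟨hv, hv0, hzv⟩
  refine ⟨⟨v, hv, hv0⟩, ?_, rfl⟩
  rw [Set.mem_ofPred_eq, Ideal.dvd_span_singleton]
  exact hzv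

/-- THE CRUDE BOUND -/
theorem crude [IsTotallyComplex K] [Finite H] (H₀ : Subgroup H) (h₀ : H₀.normalCore = ⊥)
    (S : Finset (Pl K)) :
    ∃ C : ℝ, 0 < C ∧ ∀ (E : Finset (Pl K)) (Rs : Finset (Gal(Ω/K) →* H)),
      (∀ ψ ∈ Rs, FT ψ ∧ Function.Surjective ψ ∧
        ∀ v : Pl K, v ∉ S → v ∉ E → UnrAt ψ v.asIdeal) →
      (Rs.card : ℝ) ≤ C * (∏ v ∈ E, (nm v : ℝ)) ^ (H₀.index * (H₀.index - 1)) := by
  classical
  set m : ℕ := H₀.index with hm
  have hm0 : 0 < m := Nat.pos_of_ne_zero Subgroup.index_ne_zero_of_finite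
  set S' : Set (Ideal (𝓞 K)) := (fun v : Pl K => v.asIdeal) '' (S : Set (Pl K)) ∪
    {v : Ideal (𝓞 K) | v.IsPrime ∧ v ≠ ⊥ ∧ ((m.factorial : ℕ) : 𝓞 K) ∈ v} with hS'
  have hS'f : S'.Finite := by
    refine Set.Finite.union (S.finite_toSet.image _) (fin_primes _ ?_)
    exact_mod_cast Nat.factorial_ne_zero m
  obtain ⟨C₀, hC₀, hdb⟩ := disc_bound (K := K) Ω m S' hS'f (by
    intro v hv hv0 hvS hmv
    exact hvS (Or.inr ⟨hv, hv0, hmv⟩))
  obtain ⟨C₁, hC₁, hfd⟩ := fields (K := K) (Ω := Ω) m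
  refine ⟨Nat.card (H → H) * (C₁ * (C₀ : ℝ) ^ m), ?_, ?_⟩
  · have h1 : 0 < Nat.card (H → H) := Nat.card_pos
    have h2 : (0 : ℝ) < Nat.card (H → H) := by exact_mod_cast h1
    have h3 : (0 : ℝ) < C₀ := by exact_mod_cast hC₀
    positivity
  intro E Rs hRs
  set Pn : ℕ := ∏ v ∈ E, nm v with hPn
  have hnm1 : ∀ v : Pl K, 1 ≤ nm v := fun v =>
    Nat.one_le_iff_ne_zero.mpr (fun h => v.ne_bot (Ideal.absNorm_eq_zero_iff.mp h))
  have hPn1 : 1 ≤ Pn := Finset.one_le_prod' fun v _ => hnm1 v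
  set X : ℝ := C₀ * (Pn : ℝ) ^ (m - 1) with hX
  have hX1 : 1 ≤ X := by
    rw [hX]
    have h1 : (1 : ℝ) ≤ C₀ := by exact_mod_cast hC₀
    have h2 : (1 : ℝ) ≤ (Pn : ℝ) ^ (m - 1) := one_le_pow₀ (by exact_mod_cast hPn1)
    nlinarith
  have hfield : ∀ L ∈ Rs.image (fld H₀), ∃ _ : NumberField L, finrank K L = m ∧
      (Ideal.absNorm (differentIdeal (𝓞 K) (𝓞 L)) : ℝ) ≤ X := by
    intro L hL
    obtain ⟨ψ, hψ, rfl⟩ := Finset.mem_image.mp hL
    obtain ⟨hft, hsu, hun⟩ := hRs ψ hψ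
    obtain ⟨hfix, hfin⟩ := fld_fix H₀ ψ hft
    have hrk := fld_rank H₀ ψ hft hsu
    have hNF : NumberField (fld H₀ ψ) := NumberField.of_module_finite K _
    refine ⟨hNF, hrk, ?_⟩
    set T : Finset (Ideal (𝓞 K)) := E.image fun v => v.asIdeal with hT
    have h1 := hdb (fld H₀ ψ) hfin hNF hrk T (m - 1) (by
        intro v hv
        obtain ⟨u, -, rfl⟩ := Finset.mem_image.mp hv
        exact ⟨u.isPrime, u.ne_bot⟩) (by
        intro v hv
        obtain ⟨u, -, rfl⟩ := Finset.mem_image.mp hv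
        obtain ⟨𝔓, h𝔓1, h𝔓2⟩ := ovr (Ω := Ω) u.asIdeal u.isPrime
        refine ⟨𝔓, h𝔓1, h𝔓2, ?_⟩
        have h2 := emb_one (fld H₀ ψ) (𝔓.inertia Gal(Ω/K))
        omega) (by
        intro v hv hv0 hvS hvT
        obtain ⟨𝔓, h𝔓1, h𝔓2⟩ := ovr (Ω := Ω) v hv
        refine ⟨𝔓, h𝔓1, h𝔓2, ?_⟩
        refine hrk.symm.le.trans (emb_triv (fld H₀ ψ) _ fun τ hτ g => ?_)
        rw [hfix, Subgroup.mem_comap, map_mul, map_mul]
        have h3 : ψ τ = 1 := by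
          refine hun ⟨v, hv, hv0⟩ ?_ ?_ 𝔓 h𝔓1 h𝔓2 τ hτ
          · intro hS
            exact hvS (Or.inl ⟨⟨v, hv, hv0⟩, hS, rfl⟩)
          · intro hE
            exact hvT (Finset.mem_image.mpr ⟨⟨v, hv, hv0⟩, hE, rfl⟩)
        rw [h3, mul_one, map_inv, inv_mul_cancel]
        exact H₀.one_mem)
    have h2 : ∏ v ∈ T, Ideal.absNorm v = Pn := by
      rw [hT, Finset.prod_image]
      · rfl
      · intro u _ u' _ h
        exact HeightOneSpectrum.ext h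
    rw [h2] at h1
    rw [hX]
    exact_mod_cast h1
  have h1 := hfd X hX1 _ hfield
  have h2 : Rs.card ≤ Nat.card (H → H) * (Rs.image (fld H₀)).card := by
    refine Finset.card_le_mul_card_image Rs _ ?_
    intro L _
    refine fib H₀ h₀ _ L ?_
    intro ψ hψ
    obtain ⟨h3, h4⟩ := Finset.mem_filter.mp hψ
    obtain ⟨h5, h6, -⟩ := hRs ψ h3
    exact ⟨h5, h6, h4⟩
  calc (Rs.card : ℝ) ≤ ((Nat.card (H → H) * (Rs.image (fld H₀)).card : ℕ) : ℝ) := by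
        exact_mod_cast h2
    _ = Nat.card (H → H) * ((Rs.image (fld H₀)).card : ℝ) := by push_cast; ring
    _ ≤ Nat.card (H → H) * (C₁ * X ^ m) := by gcongr
    _ = Nat.card (H → H) * (C₁ * (C₀ : ℝ) ^ m) * (∏ v ∈ E, (nm v : ℝ)) ^ (m * (m - 1)) := by
        rw [hX, mul_pow, ← pow_mul, mul_comm (m - 1) m, hPn]
        push_cast
        ring

end H1.CB
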